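import Pool.Agent.Helper58.Scheme.Reduce

set_option autoImplicit false

namespace Pool.Agent.Results.MP_89ec71_co.ClawFreeCore

open Pool.Agent.Helper58.Scheme

universe u

/-- Every finite 4-chromatic graph that can be turned into a claw-free graph by successively
deleting vertices of degree at most 3 and dominated vertices has a chromatic 4-scheme; in particular
every claw-free 4-chromatic graph has one. -/
theorem result {V : Type u} [Finite V] (G : SimpleGraph V)
    (h : ReducesToClawFree G Set.univ) (hχ : G.chromaticNumber = 4) :
    Nonempty (ChromaticFourScheme G) :=
  main' G h hχ

end Pool.Agent.Results.MP_89ec71_co.ClawFreeCore
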