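import Pool.Agent.Helper57.Force.Forced

set_option autoImplicit false

namespace Pool.Agent.Results.MP_89ec71_co.ForcedSubgraph

open Pool.Agent.Helper58.Scheme Pool.Agent.Helper57.Force

universe u

/-- Let `G` be a finite 4-chromatic graph in which the propagation of a 3-colouring from some edge
fails: the vertices reached by it induce a subgraph which is not 3-colourable. Then `G` has a
chromatic 4-scheme. -/
theorem result {V : Type u} [Finite V] (G : SimpleGraph V) (hχ : G.chromaticNumber = 4)
    (A B C : Set V) (hF : Forced G A B C) (hn : ¬ (G.induce (A ∪ B ∪ C)).Colorable 3) :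
    Nonempty (ChromaticFourScheme G) := by
  have h4 : G.Colorable 4 := by
    rw [← SimpleGraph.chromaticNumber_le_iff_colorable, hχ]; rfl
  exact main_forced G h4 hF hn

end Pool.Agent.Results.MP_89ec71_co.ForcedSubgraph
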