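import Pool.Agent.Helper67.Scheme.P5d

set_option autoImplicit false

namespace Pool.Agent.Results.MP_89ec71_co.P5Free

open Pool.Agent.Helper58.Scheme Pool.Agent.Helper67.Scheme

universe u

/-- Let `G` be a finite 4-chromatic graph which can be turned, by successively deleting vertices of
degree at most 3 and dominated vertices, into a graph without induced path on five vertices (for
instance, `G` itself has no induced path on five vertices) or into a graph in which the propagation
of a 3-colouring from some edge reaches a dominating set. Then `G` has a chromatic 4-scheme. -/
theorem result {V : Type u} [Finite V] (G : SimpleGraph V) (hχ : G.chromaticNumber = 4)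
    (h : ReducesTo G (fun S => P5Free (G.induce S) ∨ HasDominatingClosure G S) Set.univ) :
    Nonempty (ChromaticFourScheme G) :=
  scheme_of_fine G (fine_of_reducesTo
    (fun _ hS => hS.elim (fun h => fine_of_p5 h) (fun h => fine_of_closure h)) h) hχ

end Pool.Agent.Results.MP_89ec71_co.P5Free
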