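import Pool.Agent.Helper74.Par.Final
import Pool.Agent.Helper74.Par.Iff

set_option autoImplicit false

namespace Pool.Agent.Results.MP_89ec71_co.ParityScheme

open Pool.Agent.Helper74.Par Pool.Agent.Helper58.Scheme

universe u

/-- Parity version of Q1 for all 4-chromatic graphs: every finite 4-chromatic graph has a root, and
for each root `(S, v)` there are a 4-colouring and an odd set which meets `S` exactly in `v`. A
chromatic 4-scheme is the same thing as an odd set of four elements of a 4-colouring. -/
theorem result {V : Type u} [Finite V] (G : SimpleGraph V) (hχ : G.chromaticNumber = 4) :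
    (∃ S v, IsRoot G S v) ∧
    (∀ (S : Set V) (v : V), IsRoot G S v →
      ∃ (Q : G.Coloring (Fin 4)) (T : Set V), IsOddSet G Q T ∧ T ∩ S = {v} ∧
        (S = {v} → T ∩ {w | Q w = Q v} = {v})) ∧
    (Nonempty (ChromaticFourScheme G) ↔
      ∃ (Q : G.Coloring (Fin 4)) (T : Set V), IsOddSet G Q T ∧ T.ncard = 4) :=
  ⟨(parity G hχ).1, (parity G hχ).2, scheme_iff G⟩

end Pool.Agent.Results.MP_89ec71_co.ParityScheme
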